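import Pool.Agent.J4.H79.PG.Stable

/-!
# Graphs with an invariant partition and uniform adjacency between its classes
-/

set_option autoImplicit false
set_option linter.unusedSectionVars false

namespace Pool.Agent.J4.H79.PG

/-- two functions with fibres of equal size -/
theorem exists_equiv_of_fibres {α β T : Type} [Finite α] [Finite β] (f : α → T) (g : β → T)
    (h : ∀ t, Nat.card {a // f a = t} = Nat.card {b // g b = t}) :
    ∃ σ : α ≃ β, ∀ a, g (σ a) = f a := by
  classical
  have hc : ∀ t, Nonempty ({a // f a = t} ≃ {b // g b = t}) := fun t =>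
    Finite.card_eq.1 (h t)
  refine ⟨(Equiv.sigmaFiberEquiv f).symm.trans
    ((Equiv.sigmaCongrRight fun c => Classical.choice (hc c)).trans (Equiv.sigmaFiberEquiv g)),
    fun x => ?_⟩
  exact (Classical.choice (hc (f x)) ⟨x, rfl⟩).2

/-- a function whose fibres have size `m` -/
theorem card_of_fibres {α β : Type} [Finite α] [Finite β] (f : α → β) (m : ℕ)
    (h : ∀ b, Nat.card {a // f a = b} = m) : Nat.card α = Nat.card β * m := by
  classical
  have := Fintype.ofFinite β
  rw [Nat.card_congr (Equiv.sigmaFiberEquiv f).symm, Nat.card_sigma]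
  simp [h]

variable {V : Bool → Type} [∀ i, Finite (V i)] {G : ∀ i, SimpleGraph (V i)} {K : Type}
  {c : ∀ i, V i → V i → K}

/-- An invariant equivalence relation. -/
structure Inv (c : ∀ i, V i → V i → K) (E : ∀ i, Setoid (V i)) : Prop where
  iff : ∀ {i j : Bool} {x y : V i} {x' y' : V j}, c i x y = c j x' y' →
    ((E i).r x y ↔ (E j).r x' y')

/-- the colours of the points of a class -/
def cols (c : ∀ i, V i → V i → K) (E : ∀ i, Setoid (V i)) (i : Bool) (q : Quotient (E i)) : Set K :=
  {κ | ∃ z : V i, Quotient.mk (E i) z = q ∧ c i z z = κ}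

theorem cols_eq (hS : Stable V G c) {E : ∀ i, Setoid (V i)} (hE : Inv c E) {i j : Bool}
    {x : V i} {x' : V j} (h : c i x x = c j x' x') :
    cols c E i (Quotient.mk (E i) x) = cols c E j (Quotient.mk (E j) x') := by
  have key : ∀ {i j : Bool} {x : V i} {x' : V j}, c i x x = c j x' x' →
      cols c E i (Quotient.mk (E i) x) ⊆ cols c E j (Quotient.mk (E j) x') := by
    intro i j x x' h
    rintro κ ⟨z, hz, rfl⟩
    obtain ⟨β, hβ⟩ := hS.row h
    refine ⟨β z, ?_, (hS.right (hβ z)).symm⟩
    have h1 : (E i).r x z := (E i).symm (Quotient.exact hz)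
    exact Quotient.sound ((E j).symm ((hE.iff (hβ z)).1 h1))
  exact Set.Subset.antisymm (key h) (key h.symm)

/-- linked classes have equally many points of every colour -/
theorem card_col (hS : Stable V G c) {E : ∀ i, Setoid (V i)} (hE : Inv c E) {i j : Bool}
    {x : V i} {x' : V j} (h : c i x x = c j x' x') (κ : K) :
    Nat.card {z : V i // Quotient.mk (E i) z = Quotient.mk (E i) x ∧ c i z z = κ} =
      Nat.card {z : V j // Quotient.mk (E j) z = Quotient.mk (E j) x' ∧ c j z z = κ} := by
  obtain ⟨β, hβ⟩ := hS.row h
  refine Nat.card_congr (β.subtypeEquiv fun z => and_congr ?_ ?_)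
  · rw [Quotient.eq, Quotient.eq]
    have h1 := hE.iff (hβ z)
    exact ⟨fun h2 => (E j).symm (h1.1 ((E i).symm h2)), fun h2 => (E i).symm (h1.2 ((E j).symm h2))⟩
  · rw [hS.right (hβ z)]

/-- There is a bijection between the classes of the two graphs that preserves the colours. -/
theorem exists_class_equiv (hS : Stable V G c) {E : ∀ i, Setoid (V i)} (hE : Inv c E)
    (hlink : ∃ x x', c false x x = c true x' x') :
    ∃ σ : Quotient (E false) ≃ Quotient (E true), ∀ q, cols c E true (σ q) = cols c E false q := by
  classical
  obtain ⟨x0, x0', h0⟩ := hlink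
  obtain ⟨β, hβ⟩ := hS.row h0
  refine exists_equiv_of_fibres (cols c E false) (cols c E true) fun t => ?_
  -- the number of points of one colour
  have hN : ∀ κ, Nat.card {z // c false z z = κ} = Nat.card {z // c true z z = κ} := fun κ =>
    Nat.card_congr (β.subtypeEquiv fun z => by rw [hS.right (hβ z)])
  -- the case of an empty set of colours
  by_cases ht : t.Nonempty
  · obtain ⟨κ, hκ⟩ := ht
    -- points of colour `κ` lie in classes with colours `t`, if there is such a class
    have hcl : ∀ {i j : Bool} (q : Quotient (E i)), cols c E i q = t → ∀ z : V j, c j z z = κ →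
        cols c E j (Quotient.mk (E j) z) = t := by
      intro i j q hq z hz
      have h1 : κ ∈ cols c E i q := by rw [hq]; exact hκ
      obtain ⟨w, rfl, hw⟩ := h1
      rw [← hq]
      exact (cols_eq hS hE (hw.trans hz.symm)).symm
    by_cases hex : ∃ (i : Bool) (q : Quotient (E i)), cols c E i q = t
    · obtain ⟨i, q, hq⟩ := hex
      have h1 : κ ∈ cols c E i q := by rw [hq]; exact hκ
      obtain ⟨w, -, hw⟩ := h1
      set m := Nat.card {z : V i // Quotient.mk (E i) z = Quotient.mk (E i) w ∧ c i z z = κ} with hm
      have hm0 : 0 < m := by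
        have : Nonempty {z : V i // Quotient.mk (E i) z = Quotient.mk (E i) w ∧ c i z z = κ} :=
          ⟨⟨w, rfl, hw⟩⟩
        exact Nat.card_pos
      have hcount : ∀ j : Bool, Nat.card {z : V j // c j z z = κ} =
          Nat.card {q : Quotient (E j) // cols c E j q = t} * m := by
        intro j
        refine card_of_fibres
          (fun z : {z : V j // c j z z = κ} =>
            (⟨Quotient.mk (E j) z.1, hcl q hq z.1 z.2⟩ : {q : Quotient (E j) // cols c E j q = t}))
          m ?_
        rintro ⟨p, hp⟩
        have h2 : κ ∈ cols c E j p := by rw [hp]; exact hκ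
        obtain ⟨u, rfl, hu⟩ := h2
        rw [hm, card_col hS hE (hw.trans hu.symm) κ]
        refine Nat.card_congr ⟨fun z => ⟨z.1.1, ?_, z.1.2⟩, fun z => ⟨⟨z.1, z.2.2⟩, ?_⟩,
          fun z => rfl, fun z => rfl⟩
        · exact congrArg Subtype.val z.2
        · exact Subtype.ext z.2.1
      have h3 := hN κ
      rw [hcount false, hcount true] at h3
      exact Nat.eq_of_mul_eq_mul_right hm0 h3
    · have h1 : ∀ j : Bool, Nat.card {q : Quotient (E j) // cols c E j q = t} = 0 := by
        intro j
        have : IsEmpty {q : Quotient (E j) // cols c E j q = t} := ⟨fun q => hex ⟨j, q.1, q.2⟩⟩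
        exact Nat.card_of_isEmpty
      exact (h1 false).trans (h1 true).symm
  · have h1 : ∀ j : Bool, Nat.card {q : Quotient (E j) // cols c E j q = t} = 0 := by
      intro j
      have : IsEmpty {q : Quotient (E j) // cols c E j q = t} := by
        refine ⟨fun q => ht ?_⟩
        obtain ⟨q, hq⟩ := q
        induction q using Quotient.inductionOn with
        | _ z => exact ⟨c j z z, by rw [← hq]; exact ⟨z, rfl, rfl⟩⟩
      exact Nat.card_of_isEmpty
    exact (h1 false).trans (h1 true).symm

/-- **Uniform adjacency between the classes.** -/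
theorem uniform (hS : Stable V G c) {E : ∀ i, Setoid (V i)} (hE : Inv c E)
    (hlink : ∃ x x', c false x x = c true x' x') (b : Prop)
    (hb : ∀ (i : Bool) (x y : V i), ¬ (E i).r x y → ((G i).Adj x y ↔ b))
    (ih : ∀ (x : V false) (x' : V true), c false x x = c true x' x' →
      Nonempty ((G false).induce {z | (E false).r x z} ≃g (G true).induce {z | (E true).r x' z})) :
    Nonempty (G false ≃g G true) := by
  obtain ⟨σ, hσ⟩ := exists_class_equiv hS hE hlink
  refine assemble (G false) (G true) (Quotient.mk (E false)) (Quotient.mk (E true)) σ ?_ ?_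
  · intro q
    induction q using Quotient.inductionOn with
    | _ x =>
      have h1 : c false x x ∈ cols c E true (σ (Quotient.mk (E false) x)) := by
        rw [hσ]
        exact ⟨x, rfl, rfl⟩
      obtain ⟨x', h2, h3⟩ := h1
      have h4 := ih x x' h3.symm
      rw [← h2]
      have e1 : {z | Quotient.mk (E false) z = Quotient.mk (E false) x} = {z | (E false).r x z} := by
        ext z
        exact ⟨fun h => (E false).symm (Quotient.exact h), fun h => Quotient.sound ((E false).symm h)⟩
      have e2 : {z | Quotient.mk (E true) z = Quotient.mk (E true) x'} = {z | (E true).r x' z} := by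
        ext z
        exact ⟨fun h => (E true).symm (Quotient.exact h), fun h => Quotient.sound ((E true).symm h)⟩
      rw [e1, e2]
      exact h4
  · intro x y x' y' h1 h2 h3
    rw [hb false x y fun h => h1 (Quotient.sound h), hb true x' y' fun h => h1 ?_]
    apply σ.injective
    rw [← h2, ← h3]
    exact Quotient.sound h

end Pool.Agent.J4.H79.PG
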