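import Pool.Agent.J4.H79.PG.Perm

/-!
# Permutation graphs: the induction
-/

set_option autoImplicit false
set_option linter.unusedSectionVars false

namespace Pool.Agent.J4.H79.PG

open Relation Finset

section
variable {V : Bool → Type} [∀ i, Fintype (V i)] {G : ∀ i, SimpleGraph (V i)} {K : Type}
  {c : ∀ i, V i → V i → K}

theorem invariant_setoid (hS : Stable V G c) (A : ∀ i, V i → V i → Prop)
    (hA : ∀ {i j : Bool} {x y : V i} {x' y' : V j}, c i x y = c j x' y' → (A i x y → A j x' y'))
    (hs : ∀ i x y, A i x y → A i y x) : ∃ E : ∀ i, Setoid (V i),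
      (∀ i x y, (E i).r x y ↔ ReflTransGen (A i) x y) ∧ Inv c E := by
  refine ⟨fun i =>
    { r := ReflTransGen (A i)
      iseqv := ⟨fun _ => ReflTransGen.refl, fun h => ?_, fun h h' => h.trans h'⟩ },
    fun i x y => Iff.rfl, ⟨fun {i j x y x' y'} h => ?_⟩⟩
  · induction h with
    | refl => exact ReflTransGen.refl
    | tail _ h2 ih => exact ReflTransGen.head (hs i _ _ h2) ih
  · exact ⟨fun h' => hS.closure A hA h h', fun h' => hS.closure A hA h.symm h'⟩

/-- The case of a graph which is connected and whose complement is connected. -/
theorem modular (hS : Stable V G c) (h1 : ∀ i x y, ReflTransGen (G i).Adj x y)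
    (h2 : ∀ i x y, ReflTransGen (CoAdj (G i)) x y) (hnt : ∀ i, Nontrivial (V i))
    (hG : IsPermutationGraph (G false)) (hlink : ∃ x x', c false x x = c true x' x')
    (ih : ∀ (S : ∀ i, Set (V i)), (∃ y, y ∉ S false) →
      Stable (fun i => ↥(S i)) (fun i => (G i).induce (S i)) (fun i x y => c i x.1 y.1) →
      (∃ (x : S false) (x' : S true), c false x x = c true x' x') →
      Nonempty ((G false).induce (S false) ≃g (G true).induce (S true))) :
    Nonempty (G false ≃g G true) := by
  classical
  have := hnt false
  have := hnt true
  -- the invariant equivalence relation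
  have hinv : ∀ {i j : Bool} {x y : V i} {x' y' : V j}, c i x y = c j x' y' →
      (Mod (G i) x y ↔ Mod (G j) x' y') := fun h =>
    ⟨mod_invariant hS h1 h2 hnt h, mod_invariant hS h1 h2 hnt h.symm⟩
  let E : ∀ i, Setoid (V i) := fun i =>
    { r := Mod (G i)
      iseqv := ⟨fun x => by have := hnt i; exact mod_refl x, fun h => h.symm,
        fun h h' => h.trans (h1 i) (h2 i) h'⟩ }
  -- an extreme vertex and a partner
  obtain ⟨R, hR, v, hv⟩ := hG.ords
  obtain ⟨x0, x0', hx0⟩ := hlink
  obtain ⟨β0, hβ0⟩ := hS.row hx0
  have hvv : c false v v = c true (β0 v) (β0 v) := hS.right (hβ0 v)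
  set v' := β0 v with hv'
  obtain ⟨β, hβ⟩ := hS.row hvv
  -- row separation
  have sepG : ∀ {x y : V false}, c false v x = c false v y → Mod (G false) x y := by
    intro x y hxy
    refine row_sep hR hv (c := c false) (fun x hx => ((hS.eq_iff hx).2 rfl).symm)
      (fun a b hab => ?_) hxy
    obtain ⟨γ, hγ⟩ := hS.step hab
    exact ⟨γ, fun z => ⟨(hγ z).1, hS.adj_iff (hγ z).2⟩⟩
  have sepH : ∀ {a b : V true}, c true v' a = c true v' b → Mod (G true) a b := by
    intro a b hab
    have ha : c false v (β.symm a) = c true v' a := by
      have := hβ (β.symm a)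
      rwa [β.apply_symm_apply] at this
    obtain ⟨γ, hγ⟩ := hS.step ha
    obtain ⟨z, rfl⟩ := γ.surjective b
    have h3 : Mod (G false) z (β.symm a) := sepG ((hγ z).1.trans (hab.symm.trans ha.symm))
    exact ((hinv (hγ z).2).1 h3).symm
  -- transport from a point to a point
  have trans : ∀ x y : V false, ∃ y' : V true, Mod (G true) y' (β y) ∧
      c false y x = c true y' (β x) := by
    intro x y
    obtain ⟨γ, hγ⟩ := hS.step (hβ x)
    exact ⟨γ y, sepH ((hγ y).1.symm.trans (hβ y)), (hγ y).2⟩
  have hEiff : ∀ x y : V false, Mod (G false) x y ↔ Mod (G true) (β x) (β y) := by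
    intro x y
    obtain ⟨y', h3, h4⟩ := trans x y
    constructor
    · intro h
      have h5 : Mod (G true) y' (β x) := (hinv h4).1 h.symm
      exact (h5.symm).trans (h1 true) (h2 true) h3
    · intro h
      have h5 : Mod (G true) y' (β x) := h3.trans (h1 true) (h2 true) h.symm
      exact ((hinv h4).2 h5).symm
  have hcross : ∀ x y : V false, ¬ Mod (G false) x y →
      ((G false).Adj x y ↔ (G true).Adj (β x) (β y)) := by
    intro x y hxy
    obtain ⟨y', h3, h4⟩ := trans x y
    rw [(G false).adj_comm x y, hS.adj_iff h4, (G true).adj_comm y' (β x)]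
    refine h3.adj_iff fun h5 => hxy ?_
    have h6 : Mod (G true) y' (β x) := h5
    exact ((hinv h4).2 h6).symm
  -- the bijection of the classes
  let σ : Quotient (E false) ≃ Quotient (E true) := Quotient.congr β fun x y => hEiff x y
  have hσ : ∀ x, σ (Quotient.mk (E false) x) = Quotient.mk (E true) (β x) := fun x => rfl
  refine assemble (G false) (G true) (Quotient.mk (E false)) (Quotient.mk (E true)) σ ?_ ?_
  · intro q
    induction q using Quotient.inductionOn with
    | _ x =>
      rw [hσ]
      have e1 : {z | Quotient.mk (E false) z = Quotient.mk (E false) x} =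
          {z | Mod (G false) x z} := by
        ext z
        exact ⟨fun h => (E false).symm (Quotient.exact h), fun h => Quotient.sound ((E false).symm h)⟩
      have e2 : {z | Quotient.mk (E true) z = Quotient.mk (E true) (β x)} =
          {z | Mod (G true) (β x) z} := by
        ext z
        exact ⟨fun h => (E true).symm (Quotient.exact h), fun h => Quotient.sound ((E true).symm h)⟩
      rw [e1, e2]
      let b : ∀ i, V i := fun i => match i with
        | false => x
        | true => β x
      have hlinkb : ∀ i j, c i (b i) (b i) = c j (b j) (b j) := by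
        have h5 : c false x x = c true (β x) (β x) := hS.right (hβ x)
        intro i j
        match i, j with
        | false, false => rfl
        | true, true => rfl
        | false, true => exact h5
        | true, false => exact h5.symm
      have hstab : Stable (fun i => ↥({z | Mod (G i) (b i) z} : Set (V i)))
          (fun i => (G i).induce {z | Mod (G i) (b i) z}) (fun i x y => c i x.1 y.1) := by
        refine hS.restrict (fun i => {z | Mod (G i) (b i) z}) ?_
        intro i j p q p' q' hpq hp hp'
        have hp1 : Mod (G i) (b i) p := hp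
        have hp1' : Mod (G j) (b j) p' := hp'
        constructor
        · intro hq
          exact hp1'.trans (h1 j) (h2 j) ((hinv hpq).1 ((hp1.symm).trans (h1 i) (h2 i) hq))
        · intro hq
          exact hp1.trans (h1 i) (h2 i) ((hinv hpq).2 ((hp1'.symm).trans (h1 j) (h2 j) hq))
      refine ih (fun i => {z | Mod (G i) (b i) z}) ?_ hstab ?_
      · exact exists_not_mod (h1 false) (h2 false) x
      · refine ⟨⟨x, mod_refl x⟩, ⟨β x, mod_refl (β x)⟩, ?_⟩
        exact hlinkb false true
  · intro x y x' y' h3 h4 h5
    have h6 : ¬ Mod (G false) x y := fun h => h3 (Quotient.sound h)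
    rw [hσ] at h4 h5
    have h4' : Mod (G true) x' (β x) := Quotient.exact h4
    have h5' : Mod (G true) y' (β y) := Quotient.exact h5
    have h7 : ¬ Mod (G true) (β x) (β y) := fun h => h6 ((hEiff x y).2 h)
    rw [hcross x y h6]
    have h8 : ¬ Mod (G true) x' (β y) := fun h => h7 ((h4'.symm).trans (h1 true) (h2 true) h)
    have h9 : ¬ Mod (G true) (β y) (β x) := fun h => h7 h.symm
    have h10 : ¬ Mod (G true) y' x' := fun h =>
      h8 (((h.symm)).trans (h1 true) (h2 true) h5')
    rw [h5'.symm.adj_iff (z := β x) h9, (G true).adj_comm (β x) y']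
    rw [h4'.symm.adj_iff (z := y') ?_, (G true).adj_comm y' x']
    intro h
    exact h10 ((h4'.trans (h1 true) (h2 true) h).symm)

end

/-- **The induction.** -/
theorem iso_of_stable (n : ℕ) : ∀ (V : Bool → Type) [∀ i, Fintype (V i)]
    (G : ∀ i, SimpleGraph (V i)) {K : Type} (c : ∀ i, V i → V i → K), Stable V G c →
    Nat.card (V false) ≤ n → IsPermutationGraph (G false) →
    (∃ x x', c false x x = c true x' x') → Nonempty (G false ≃g G true) := by
  induction n with
  | zero =>
    intro V _ G K c hS hn hG hlink
    obtain ⟨x, -⟩ := hlink
    have : Nonempty (V false) := ⟨x⟩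
    have := Nat.card_pos (α := V false)
    omega
  | succ n ih =>
    intro V _ G K c hS hn hG hlink
    classical
    -- the induction hypothesis for proper subsets
    have ih' : ∀ (S : ∀ i, Set (V i)), (∃ y, y ∉ S false) →
        Stable (fun i => ↥(S i)) (fun i => (G i).induce (S i)) (fun i x y => c i x.1 y.1) →
        (∃ (x : S false) (x' : S true), c false x x = c true x' x') →
        Nonempty ((G false).induce (S false) ≃g (G true).induce (S true)) := by
      intro S ⟨y, hy⟩ hst hl
      refine ih (fun i => ↥(S i)) (fun i => (G i).induce (S i)) (fun i x y => c i x.1 y.1) hst ?_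
        (hG.induce _) hl
      have h1 : Nat.card (S false) < Nat.card (V false) := by
        rw [Nat.card_eq_fintype_card, Nat.card_eq_fintype_card]
        exact Fintype.card_subtype_lt (p := fun z => z ∈ S false) hy
      exact Nat.le_of_lt_succ (lt_of_lt_of_le h1 hn)
    -- partitions with uniform adjacency
    have huni : ∀ (A : ∀ i, V i → V i → Prop),
        (∀ {i j : Bool} {x y : V i} {x' y' : V j}, c i x y = c j x' y' → (A i x y → A j x' y')) →
        (∀ i x y, A i x y → A i y x) → ∀ b : Prop,
        (∀ (i : Bool) (x y : V i), ¬ ReflTransGen (A i) x y → ((G i).Adj x y ↔ b)) →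
        (¬ ∀ x y, ReflTransGen (A false) x y) → Nonempty (G false ≃g G true) := by
      intro A hA hs b hb hnc
      obtain ⟨E, hE, hinv⟩ := invariant_setoid hS A hA hs
      refine uniform hS hinv hlink b (fun i x y h => hb i x y fun h' => h ((hE i x y).2 h')) ?_
      intro x x' hxx
      let p : ∀ i, V i := fun i => match i with
        | false => x
        | true => x'
      have hst : Stable (fun i => ↥({z | (E i).r (p i) z} : Set (V i)))
          (fun i => (G i).induce {z | (E i).r (p i) z}) (fun i x y => c i x.1 y.1) := by
        refine hS.restrict (fun i => {z | (E i).r (p i) z}) ?_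
        intro i j a d a' d' had ha ha'
        constructor
        · intro hd
          exact (E j).trans ha' ((hinv.iff had).1 ((E i).trans ((E i).symm ha) hd))
        · intro hd
          exact (E i).trans ha ((hinv.iff had).2 ((E j).trans ((E j).symm ha') hd))
      refine ih' (fun i => {z | (E i).r (p i) z}) ?_ hst
        ⟨⟨x, (E false).refl x⟩, ⟨x', (E true).refl x'⟩, hxx⟩
      by_contra hc
      push Not at hc
      apply hnc
      intro y z
      rw [← hE]
      exact (E false).trans ((E false).symm (hc y)) (hc z)
    by_cases c1 : ∀ x y, ReflTransGen (G false).Adj x y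
    · by_cases c2 : ∀ x y, ReflTransGen (CoAdj (G false)) x y
      · by_cases hsub : Subsingleton (V false)
        · obtain ⟨x, x', hx⟩ := hlink
          obtain ⟨β, -⟩ := hS.row hx
          have : Subsingleton (V true) := β.symm.injective.subsingleton
          refine ⟨⟨β, fun {a b} => ?_⟩⟩
          exact ⟨fun h => absurd (Subsingleton.elim _ _) h.ne,
            fun h => absurd (Subsingleton.elim _ _) h.ne⟩
        · rw [not_subsingleton_iff_nontrivial] at hsub
          obtain ⟨x0, x0', hx0⟩ := hlink
          obtain ⟨β, hβ⟩ := hS.row hx0
          -- every pair of the second graph has the colour of a pair of the first one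
          have hpair : ∀ a b : V true, ∃ x y : V false, c false x y = c true a b := by
            intro a b
            obtain ⟨x, rfl⟩ := β.surjective a
            obtain ⟨γ, hγ⟩ := hS.row (hS.right (hβ x))
            exact ⟨x, γ.symm b, by rw [hγ, γ.apply_symm_apply]⟩
          have hnt : ∀ i, Nontrivial (V i) := by
            intro i
            match i with
            | false => exact hsub
            | true => exact β.symm.surjective.nontrivial
          have d1 : ∀ i x y, ReflTransGen (G i).Adj x y := by
            intro i
            match i with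
            | false => exact c1
            | true =>
              intro a b
              obtain ⟨x, y, h⟩ := hpair a b
              exact hS.closure (fun i => (G i).Adj) (fun h => (hS.adj_iff h).1) h (c1 x y)
          have d2 : ∀ i x y, ReflTransGen (CoAdj (G i)) x y := by
            intro i
            match i with
            | false => exact c2
            | true =>
              intro a b
              obtain ⟨x, y, h⟩ := hpair a b
              refine hS.closure (fun i => CoAdj (G i)) (fun h h' => ?_) h (c2 x y)
              exact ⟨fun he => h'.1 ((hS.eq_iff h).2 he), fun he => h'.2 ((hS.adj_iff h).2 he)⟩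
          exact modular hS d1 d2 hnt hG ⟨x0, x0', hx0⟩ ih'
      · refine huni (fun i => CoAdj (G i)) ?_ ?_ True ?_ c2
        · intro i j x y x' y' h h'
          exact ⟨fun he => h'.1 ((hS.eq_iff h).2 he), fun he => h'.2 ((hS.adj_iff h).2 he)⟩
        · intro i x y h
          exact ⟨h.1.symm, fun h' => h.2 h'.symm⟩
        · intro i x y h
          refine ⟨fun _ => trivial, fun _ => ?_⟩
          by_contra hc
          apply h
          by_cases hxy : x = y
          · rw [hxy]
          · exact ReflTransGen.single ⟨hxy, hc⟩
    · refine huni (fun i => (G i).Adj) (fun h => (hS.adj_iff h).1) (fun i x y h => h.symm) False ?_ c1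
      intro i x y h
      exact ⟨fun h' => h (ReflTransGen.single h'), False.elim⟩

end Pool.Agent.J4.H79.PG
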