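import Mathlib

/-!
# Stable colourings of the pairs of two graphs
-/

set_option autoImplicit false

namespace Pool.Agent.J4.H79.PG

/-- A colouring `c` of the pairs of vertices of the two graphs `G false`, `G true` which is stable:
pairs of equal colour agree in equality and adjacency, and have, up to a bijection, the same
triangles of colours over them. -/
structure Stable (V : Bool → Type) (G : ∀ i, SimpleGraph (V i)) {K : Type}
    (c : ∀ i, V i → V i → K) : Prop where
  eq_iff : ∀ {i j : Bool} {x y : V i} {x' y' : V j}, c i x y = c j x' y' → (x = y ↔ x' = y')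
  adj_iff : ∀ {i j : Bool} {x y : V i} {x' y' : V j}, c i x y = c j x' y' →
    ((G i).Adj x y ↔ (G j).Adj x' y')
  step : ∀ {i j : Bool} {x y : V i} {x' y' : V j}, c i x y = c j x' y' →
    ∃ β : V i ≃ V j, ∀ z, c i x z = c j x' (β z) ∧ c i z y = c j (β z) y'

variable {V : Bool → Type} {G : ∀ i, SimpleGraph (V i)} {K : Type} {c : ∀ i, V i → V i → K}

theorem Stable.left (hS : Stable V G c) {i j : Bool} {x y : V i} {x' y' : V j}
    (h : c i x y = c j x' y') : c i x x = c j x' x' := by
  obtain ⟨β, hβ⟩ := hS.step h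
  have h1 := (hβ x).1
  have h2 : x' = β x := (hS.eq_iff h1).1 rfl
  rw [← h2] at h1
  exact h1

theorem Stable.right (hS : Stable V G c) {i j : Bool} {x y : V i} {x' y' : V j}
    (h : c i x y = c j x' y') : c i y y = c j y' y' := by
  obtain ⟨β, hβ⟩ := hS.step h
  have h1 := (hβ y).2
  have h2 : β y = y' := (hS.eq_iff h1).1 rfl
  rw [h2] at h1
  exact h1

/-- linked rows have a colour preserving bijection -/
theorem Stable.row (hS : Stable V G c) {i j : Bool} {x : V i} {x' : V j}
    (h : c i x x = c j x' x') : ∃ β : V i ≃ V j, ∀ z, c i x z = c j x' (β z) := by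
  obtain ⟨β, hβ⟩ := hS.step h
  exact ⟨β, fun z => (hβ z).1⟩

/-- Restriction to subsets which are unions of classes seen from each of their points. -/
theorem Stable.restrict (hS : Stable V G c) (S : ∀ i, Set (V i))
    (hP : ∀ {i j : Bool} {x y : V i} {x' y' : V j}, c i x y = c j x' y' → x ∈ S i → x' ∈ S j →
      (y ∈ S i ↔ y' ∈ S j)) :
    Stable (fun i => ↥(S i)) (fun i => (G i).induce (S i)) (fun i x y => c i x.1 y.1) where
  eq_iff := by
    intro i j x y x' y' h
    rw [Subtype.ext_iff, Subtype.ext_iff]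
    exact hS.eq_iff h
  adj_iff := by
    intro i j x y x' y' h
    exact hS.adj_iff h
  step := by
    intro i j x y x' y' h
    obtain ⟨β, hβ⟩ := hS.step h
    refine ⟨β.subtypeEquiv fun z => hP (hβ z).1 x.2 x'.2, fun z => ?_⟩
    exact hβ z.1

/-- The pieces of an isomorphism. -/
theorem assemble {V W α β : Type} (G : SimpleGraph V) (H : SimpleGraph W) (f : V → α) (g : W → β)
    (σ : α ≃ β)
    (hiso : ∀ a, Nonempty (G.induce {z | f z = a} ≃g H.induce {w | g w = σ a}))
    (hcross : ∀ x y x' y', f x ≠ f y → g x' = σ (f x) → g y' = σ (f y) →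
      (G.Adj x y ↔ H.Adj x' y')) : Nonempty (G ≃g H) := by
  classical
  let φ : ∀ a, G.induce {z | f z = a} ≃g H.induce {w | g w = σ a} := fun a => Classical.choice (hiso a)
  have hg : ∀ x : V, g ((φ (f x)) ⟨x, rfl⟩).1 = σ (f x) := fun x => ((φ (f x)) ⟨x, rfl⟩).2
  let F : V → W := fun x => ((φ (f x)) ⟨x, rfl⟩).1
  have hF : ∀ (a : α) (x : V) (hx : f x = a), F x = ((φ a) ⟨x, hx⟩).1 := by
    rintro _ x rfl
    rfl
  have hinj : Function.Injective F := by
    intro x y hxy
    have h1 : f x = f y := by
      apply σ.injective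
      rw [← hg x, ← hg y]
      exact congrArg g hxy
    have h2 := hF (f y) x h1
    have h3 := hF (f y) y rfl
    rw [h2, h3] at hxy
    have h4 := (φ (f y)).injective (Subtype.ext hxy)
    exact congrArg Subtype.val h4
  have hsurj : Function.Surjective F := by
    intro w
    have hw : g w = σ (σ.symm (g w)) := (σ.apply_symm_apply _).symm
    let z := (φ (σ.symm (g w))).symm ⟨w, hw⟩
    refine ⟨z.1, ?_⟩
    rw [hF _ z.1 z.2]
    show ((φ (σ.symm (g w))) z).1 = w
    rw [RelIso.apply_symm_apply]
  refine ⟨⟨Equiv.ofBijective F ⟨hinj, hsurj⟩, ?_⟩⟩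
  intro x y
  show H.Adj (F x) (F y) ↔ G.Adj x y
  by_cases h : f x = f y
  · rw [hF (f y) x h, hF (f y) y rfl]
    exact (φ (f y)).map_adj_iff (v := ⟨x, h⟩) (w := ⟨y, rfl⟩)
  · exact (hcross x y (F x) (F y) h (hg x) (hg y)).symm

/-- closures of invariant relations are invariant -/
theorem Stable.closure (hS : Stable V G c) (A : ∀ i, V i → V i → Prop)
    (hA : ∀ {i j : Bool} {x y : V i} {x' y' : V j}, c i x y = c j x' y' → (A i x y → A j x' y'))
    {i j : Bool} {x y : V i} {x' y' : V j} (h : c i x y = c j x' y')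
    (hxy : Relation.ReflTransGen (A i) x y) : Relation.ReflTransGen (A j) x' y' := by
  revert x' y'
  induction hxy using Relation.ReflTransGen.head_induction_on with
  | refl =>
    intro x' y' h
    rw [(hS.eq_iff h).1 rfl]
  | head h1 _ ih =>
    intro x' y' h
    obtain ⟨β, hβ⟩ := hS.step h
    exact Relation.ReflTransGen.head (hA (hβ _).1 h1) (ih (hβ _).2)

end Pool.Agent.J4.H79.PG
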