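import Pool.Agent.J4.H79.PG.Stable
import Pool.Agent.N624.NT.Game

/-!
# The colours of the Weisfeiler-Leman method form a stable colouring of the pairs
-/

set_option autoImplicit false
set_option linter.unusedSectionVars false

namespace Pool.Agent.J4.H79.PG

open Finset Pool.Agent.W185.SRG Pool.Agent.N624.NT

/-- the tuple `(x, y, …, y)` -/
def tup {V : Type} (k : ℕ) (x y : V) : Fin k → V := fun i => if (i : ℕ) = 0 then x else y

/-- the stable colour of a pair, read off the tuple `(x, y, …, y)` -/
noncomputable def pcol {V : Type} [Fintype V] (G : SimpleGraph V) (k : ℕ) (x y : V) :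
    (t : ℕ) → Col k t := fun t => wl G k t (tup k x y)

section
variable {V W : Type} [Fintype V] [Fintype W] {G : SimpleGraph V} {H : SimpleGraph W} {k : ℕ}

theorem pcol_eq {x y : V} {x' y' : W} :
    pcol G k x y = pcol H k x' y' ↔ Sm G H k (tup k x y) (tup k x' y') := by
  constructor
  · intro h t
    exact congrFun h t
  · intro h
    exact funext h

/-- a coordinate may be copied to another one -/
theorem Sm.copy {u : Fin k → V} {v : Fin k → W} (h : Sm G H k u v) (i j : Fin k) :
    Sm G H k (Function.update u i (u j)) (Function.update v i (v j)) := by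
  classical
  by_cases hij : i = j
  · subst hij
    rw [Function.update_eq_self, Function.update_eq_self]
    exact h
  obtain ⟨β, hβ⟩ := h.step
  have h1 := hβ (u j) i
  have h2 : isoType G k (Function.update u i (u j)) = isoType H k (Function.update v i (β (u j))) :=
    h1 0
  have h3 := congrFun (congrFun (congrArg Prod.fst h2) i) j
  have h4 : (Function.update u i (u j) i = Function.update u i (u j) j) =
    (Function.update v i (β (u j)) i = Function.update v i (β (u j)) j) := h3
  rw [Function.update_self, Function.update_of_ne (Ne.symm hij), Function.update_self,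
    Function.update_of_ne (Ne.symm hij)] at h4
  have h5 : β (u j) = v j := h4 ▸ rfl
  rw [h5] at h1
  exact h1

/-- a coordinate may be copied to several other ones -/
theorem Sm.copies {u : Fin k → V} {v : Fin k → W} (h : Sm G H k u v) (j : Fin k)
    (s : Finset (Fin k)) (hj : j ∉ s) :
    Sm G H k (fun i => if i ∈ s then u j else u i) (fun i => if i ∈ s then v j else v i) := by
  classical
  induction s using Finset.induction_on with
  | empty => simpa using h
  | insert a s ha ih =>
    rw [Finset.mem_insert, not_or] at hj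
    have h1 := Sm.copy (ih hj.2) a j
    have e : ∀ {X : Type} (w : Fin k → X), Function.update (fun i => if i ∈ s then w j else w i) a
        ((fun i => if i ∈ s then w j else w i) j) = fun i => if i ∈ insert a s then w j else w i := by
      intro X w
      funext i
      by_cases hi : i = a
      · subst hi
        rw [Function.update_self]
        simp [hj.2]
      · rw [Function.update_of_ne hi]
        simp [Finset.mem_insert, hi]
    rw [e u, e v] at h1
    exact h1

theorem update_tup_zero {X : Type} (hk : 2 ≤ k) (x y z : X) :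
    Function.update (tup k x y) ⟨0, by omega⟩ z = tup k z y := by
  funext i
  by_cases hi : (i : ℕ) = 0
  · have : i = ⟨0, by omega⟩ := Fin.ext hi
    rw [this, Function.update_self]
    simp [tup]
  · rw [Function.update_of_ne (fun h => hi (by rw [h]))]
    simp [tup, hi]

/-- the step for pairs -/
theorem pair_step (hk : 2 ≤ k) {x y : V} {x' y' : W} (h : pcol G k x y = pcol H k x' y') :
    ∃ β : V ≃ W, ∀ z, pcol G k x z = pcol H k x' (β z) ∧ pcol G k z y = pcol H k (β z) y' := by
  classical
  rw [pcol_eq] at h
  obtain ⟨β, hβ⟩ := h.step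
  refine ⟨β, fun z => ⟨?_, ?_⟩⟩
  · rw [pcol_eq]
    have h1 := Sm.copies (hβ z ⟨1, by omega⟩) ⟨1, by omega⟩
      (univ.filter fun i : Fin k => 2 ≤ (i : ℕ)) (by simp)
    have e : ∀ {X : Type} (x y z : X), (fun i => if i ∈ (univ.filter fun i : Fin k => 2 ≤ (i : ℕ))
        then Function.update (tup k x y) ⟨1, by omega⟩ z ⟨1, by omega⟩
        else Function.update (tup k x y) ⟨1, by omega⟩ z i) = tup k x z := by
      intro X x y z
      funext i
      rw [Function.update_self]
      have hm : (i ∈ univ.filter fun i : Fin k => 2 ≤ (i : ℕ)) ↔ 2 ≤ (i : ℕ) := by simp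
      by_cases hi : 2 ≤ (i : ℕ)
      · rw [if_pos (hm.2 hi)]
        have : (i : ℕ) ≠ 0 := by omega
        simp [tup, this]
      · rw [if_neg fun h => hi (hm.1 h)]
        by_cases hi1 : i = ⟨1, by omega⟩
        · rw [hi1, Function.update_self]
          simp [tup]
        · rw [Function.update_of_ne hi1]
          have : (i : ℕ) = 0 := by
            by_contra hc
            apply hi1
            apply Fin.ext
            show (i : ℕ) = 1
            omega
          simp [tup, this]
    rw [e x y z, e x' y' (β z)] at h1
    exact h1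
  · rw [pcol_eq]
    have h1 := hβ z ⟨0, by omega⟩
    rw [update_tup_zero hk, update_tup_zero hk] at h1
    exact h1

theorem pcol_eq_iff (hk : 2 ≤ k) {x y : V} {x' y' : W} (h : pcol G k x y = pcol H k x' y') :
    x = y ↔ x' = y' := by
  rw [pcol_eq] at h
  have h2 : isoType G k (tup k x y) = isoType H k (tup k x' y') := h 0
  have h3 := congrFun (congrFun (congrArg Prod.fst h2) ⟨0, by omega⟩) ⟨1, by omega⟩
  have h4 : (tup k x y ⟨0, by omega⟩ = tup k x y ⟨1, by omega⟩) =
    (tup k x' y' ⟨0, by omega⟩ = tup k x' y' ⟨1, by omega⟩) := h3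
  simpa [tup] using h4

theorem pcol_adj_iff (hk : 2 ≤ k) {x y : V} {x' y' : W} (h : pcol G k x y = pcol H k x' y') :
    G.Adj x y ↔ H.Adj x' y' := by
  rw [pcol_eq] at h
  have h2 : isoType G k (tup k x y) = isoType H k (tup k x' y') := h 0
  have h3 := congrFun (congrFun (congrArg Prod.snd h2) ⟨0, by omega⟩) ⟨1, by omega⟩
  have h4 : G.Adj (tup k x y ⟨0, by omega⟩) (tup k x y ⟨1, by omega⟩) =
    H.Adj (tup k x' y' ⟨0, by omega⟩) (tup k x' y' ⟨1, by omega⟩) := h3
  simpa [tup] using h4

end

/-- the two graphs as a family -/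
def fam (V W : Type) : Bool → Type
  | false => V
  | true => W

instance (V W : Type) [Fintype V] [Fintype W] (i : Bool) : Fintype (fam V W i) :=
  match i with
  | false => (inferInstance : Fintype V)
  | true => (inferInstance : Fintype W)

/-- the family of the two graphs -/
def famG {V W : Type} (G : SimpleGraph V) (H : SimpleGraph W) : ∀ i, SimpleGraph (fam V W i)
  | false => G
  | true => H

theorem stable_wl {V W : Type} [Fintype V] [Fintype W] (G : SimpleGraph V) (H : SimpleGraph W)
    {k : ℕ} (hk : 2 ≤ k) : Stable (fam V W) (famG G H) (fun i => pcol (famG G H i) k) where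
  eq_iff := fun h => pcol_eq_iff hk h
  adj_iff := fun h => pcol_adj_iff hk h
  step := fun h => pair_step hk h

/-- Equivalent graphs have linked rows. -/
theorem linked {V W : Type} [Fintype V] [Fintype W] {G : SimpleGraph V} {H : SimpleGraph W}
    {k : ℕ} (h : WLEquivalent k G H) (x : V) (hk : 2 ≤ k) :
    ∃ x', pcol G k x x = pcol H k x' x' := by
  classical
  obtain ⟨ψ, hψ⟩ := h
  have h1 : Sm G H k (tup k x x) (ψ (tup k x x)) := fun t => hψ t _
  refine ⟨ψ (tup k x x) ⟨0, by omega⟩, ?_⟩
  rw [pcol_eq]
  have h2 : ψ (tup k x x) = tup k (ψ (tup k x x) ⟨0, by omega⟩) (ψ (tup k x x) ⟨0, by omega⟩) := by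
    funext i
    have h3 : isoType G k (tup k x x) = isoType H k (ψ (tup k x x)) := h1 0
    have h4 := congrFun (congrFun (congrArg Prod.fst h3) i) ⟨0, by omega⟩
    have h5 : (tup k x x i = tup k x x ⟨0, by omega⟩) =
      (ψ (tup k x x) i = ψ (tup k x x) ⟨0, by omega⟩) := h4
    have h6 : tup k x x i = tup k x x ⟨0, by omega⟩ := by simp [tup]
    have h7 : ψ (tup k x x) i = ψ (tup k x x) ⟨0, by omega⟩ := h5 ▸ h6
    rw [h7]
    simp [tup]
  rw [← h2]
  exact h1

end Pool.Agent.J4.H79.PG
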