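import Pool.Agent.J4.H79.PG.Main
import Pool.Agent.J4.H79.PG.Wl

/-!
# The Weisfeiler-Leman dimension of permutation graphs: conclusion
-/

set_option autoImplicit false
set_option linter.unusedSectionVars false

namespace Pool.Agent.J4.H79.PG

open Finset Pool.Agent.W185.SRG Pool.Agent.N624.NT

section
variable {V W : Type} [Fintype V] [Fintype W] {G : SimpleGraph V} {H : SimpleGraph W}

theorem wl_iso (φ : G ≃g H) (k t : ℕ) (S : Fin k → V) : wl G k t S = wl H k t (φ ∘ S) := by
  classical
  induction t generalizing S with
  | zero =>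
    refine Prod.ext ?_ ?_
    · funext i j
      exact propext φ.injective.eq_iff.symm
    · funext i j
      exact propext φ.map_adj_iff.symm
  | succ t ih =>
    refine Prod.ext (ih S) ?_
    show (univ : Finset V).val.map (fun x => fun i => wl G k t (Function.update S i x)) =
      (univ : Finset W).val.map (fun x => fun i => wl H k t (Function.update (φ ∘ S) i x))
    have h1 : (univ : Finset W).val = (univ : Finset V).val.map φ := by
      have := Finset.map_univ_equiv φ.toEquiv
      rw [← this, Finset.map_val]
      rfl
    rw [h1, Multiset.map_map]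
    refine Multiset.map_congr rfl fun x _ => ?_
    funext i
    rw [ih]
    congr 1
    exact Function.comp_update _ _ _ _

theorem wlEquivalent_of_iso (φ : G ≃g H) (k : ℕ) : WLEquivalent k G H :=
  ⟨(Equiv.refl (Fin k)).arrowCongr φ.toEquiv, fun t S => wl_iso φ k t S⟩

/-- **Permutation graphs are identified by the two-dimensional method.** -/
theorem main (k : ℕ) (hk : 2 ≤ k) (hG : IsPermutationGraph G) :
    WLEquivalent k G H ↔ Nonempty (G ≃g H) := by
  constructor
  · intro h
    rcases isEmpty_or_nonempty V with hV | ⟨⟨x⟩⟩
    · obtain ⟨ψ, -⟩ := h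
      have hW : IsEmpty W := by
        refine ⟨fun w => ?_⟩
        exact hV.false ((ψ.symm fun _ => w) ⟨0, by omega⟩)
      exact ⟨⟨Equiv.equivOfIsEmpty V W, fun {a} => (hV.false a).elim⟩⟩
    · have hS := stable_wl G H hk
      obtain ⟨x', hx'⟩ := linked h x hk
      exact iso_of_stable (Nat.card V) (fam V W) (famG G H) (fun i => pcol (famG G H i) k) hS
        le_rfl hG ⟨x, x', hx'⟩
  · rintro ⟨φ⟩
    exact wlEquivalent_of_iso φ k

end

end Pool.Agent.J4.H79.PG
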