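import Pool.Agent.J4.H79.PG.Stable

/-!
# Modules and the Weisfeiler-Leman method

If a graph and its complement are connected, the relation that `x` and `y` lie in a common proper
module is invariant under two-dimensional Weisfeiler-Leman refinement.
-/

set_option autoImplicit false
set_option linter.unusedSectionVars false

namespace Pool.Agent.J4.H79.PG

open Relation

section
variable {V : Type} (G : SimpleGraph V)

/-- a module: every outside vertex is adjacent to all or to none of its vertices -/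
def IsModule (M : Set V) : Prop := ∀ x ∈ M, ∀ y ∈ M, ∀ z, z ∉ M → (G.Adj z x ↔ G.Adj z y)

/-- different and not adjacent -/
def CoAdj (x y : V) : Prop := x ≠ y ∧ ¬ G.Adj x y

/-- `x` and `y` lie in a common proper module -/
def Mod (x y : V) : Prop := ∃ M : Set V, IsModule G M ∧ M ≠ Set.univ ∧ x ∈ M ∧ y ∈ M

variable {G}

theorem IsModule.union {M N : Set V} (hM : IsModule G M) (hN : IsModule G N) {x : V}
    (hxM : x ∈ M) (hxN : x ∈ N) : IsModule G (M ∪ N) := by
  intro y hy z hz w hw
  rw [Set.mem_union, not_or] at hw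
  have key : ∀ y ∈ M ∪ N, (G.Adj w y ↔ G.Adj w x) := by
    rintro y (hy | hy)
    · exact hM y hy x hxM w hw.1
    · exact hN y hy x hxN w hw.2
  rw [key y hy, key z hz]

/-- If the graph and its complement are connected, the union of two overlapping proper modules is
proper. -/
theorem union_ne_univ (h1 : ∀ x y, ReflTransGen G.Adj x y) (h2 : ∀ x y, ReflTransGen (CoAdj G) x y)
    {M N : Set V} (hM : IsModule G M) (hN : IsModule G N) (hM' : M ≠ Set.univ)
    (hN' : N ≠ Set.univ) {x : V} (hxM : x ∈ M) (hxN : x ∈ N) : M ∪ N ≠ Set.univ := by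
  intro hu
  obtain ⟨a, ha⟩ := (Set.ne_univ_iff_exists_notMem N).1 hN'
  obtain ⟨b, hb⟩ := (Set.ne_univ_iff_exists_notMem M).1 hM'
  have haM : a ∈ M := (show a ∈ M ∪ N by rw [hu]; trivial).resolve_right ha
  -- all pairs between `M` and the complement of `M` behave as `a`, `b`
  have key : ∀ m ∈ M, ∀ y, y ∉ M → (G.Adj y m ↔ G.Adj a b) := by
    intro m hm y hy
    have hyN : y ∈ N := (show y ∈ M ∪ N by rw [hu]; trivial).resolve_left hy
    have hbN : b ∈ N := (show b ∈ M ∪ N by rw [hu]; trivial).resolve_left hb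
    rw [hM m hm a haM y hy, G.adj_comm y a]
    exact hN y hyN b hbN a ha
  by_cases hab : G.Adj a b
  · -- the complement is disconnected
    have h3 : ∀ z, ReflTransGen (CoAdj G) x z → z ∈ M := by
      intro z hz
      induction hz with
      | refl => exact hxM
      | tail _ h4 ih =>
        by_contra hc
        exact h4.2 ((G.adj_comm _ _).1 ((key _ ih _ hc).2 hab))
    exact hb (h3 b (h2 x b))
  · have h3 : ∀ z, ReflTransGen G.Adj x z → z ∈ M := by
      intro z hz
      induction hz with
      | refl => exact hxM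
      | tail _ h4 ih =>
        by_contra hc
        exact hab ((key _ ih _ hc).1 h4.symm)
    exact hb (h3 b (h1 x b))

theorem Mod.symm {x y : V} (h : Mod G x y) : Mod G y x := by
  obtain ⟨M, h1, h2, h3, h4⟩ := h
  exact ⟨M, h1, h2, h4, h3⟩

theorem mod_refl [Nontrivial V] (x : V) : Mod G x x := by
  obtain ⟨y, hy⟩ := exists_ne x
  refine ⟨{x}, ?_, ?_, rfl, rfl⟩
  · rintro a rfl b rfl z _
    exact Iff.rfl
  · intro h
    exact hy (by
      have : y ∈ ({x} : Set V) := by rw [h]; trivial
      exact this)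

theorem Mod.trans (h1 : ∀ x y, ReflTransGen G.Adj x y) (h2 : ∀ x y, ReflTransGen (CoAdj G) x y)
    {x y z : V} (h : Mod G x y) (h' : Mod G y z) : Mod G x z := by
  obtain ⟨M, a1, a2, a3, a4⟩ := h
  obtain ⟨N, b1, b2, b3, b4⟩ := h'
  exact ⟨M ∪ N, a1.union b1 a4 b3, union_ne_univ h1 h2 a1 b1 a2 b2 a4 b3, Or.inl a3, Or.inr b4⟩

/-- a vertex outside the class of `x` does not distinguish `x` and the elements of the class -/
theorem Mod.adj_iff {x y z : V} (h : Mod G x y) (hz : ¬ Mod G x z) : G.Adj z x ↔ G.Adj z y := by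
  obtain ⟨M, a1, a2, a3, a4⟩ := h
  exact a1 x a3 y a4 z fun hzM => hz ⟨M, a1, a2, a3, hzM⟩

/-- the class of `x` is proper -/
theorem exists_not_mod [Finite V] (h1 : ∀ x y, ReflTransGen G.Adj x y)
    (h2 : ∀ x y, ReflTransGen (CoAdj G) x y) [Nontrivial V] (x : V) : ∃ y, ¬ Mod G x y := by
  by_contra hc
  push Not at hc
  -- a maximal proper module
  have hfin : {M : Set V | IsModule G M ∧ M ≠ Set.univ ∧ x ∈ M}.Finite := Set.toFinite _
  have hne : {M : Set V | IsModule G M ∧ M ≠ Set.univ ∧ x ∈ M}.Nonempty := by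
    obtain ⟨M, a1, a2, a3, -⟩ := mod_refl (G := G) x
    exact ⟨M, a1, a2, a3⟩
  obtain ⟨M, hM⟩ := hfin.exists_maximal hne
  obtain ⟨⟨a1, a2, a3⟩, hmax⟩ := hM
  obtain ⟨y, hy⟩ := (Set.ne_univ_iff_exists_notMem M).1 a2
  obtain ⟨N, b1, b2, b3, b4⟩ := hc y
  have h3 : M ∪ N ∈ {M : Set V | IsModule G M ∧ M ≠ Set.univ ∧ x ∈ M} :=
    ⟨a1.union b1 a3 b3, union_ne_univ h1 h2 a1 b1 a2 b2 a3 b3, Or.inl a3⟩
  exact hy (hmax h3 Set.subset_union_left (Or.inr b4))

variable (G) in
/-- the arcs of the graph of forcing at `x`: from `y` to every vertex `z` which distinguishes `x`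
and `y` -/
def Arc (x y z : V) : Prop := z ≠ x ∧ z ≠ y ∧ ¬ (G.Adj z x ↔ G.Adj z y)

/-- A vertex that lies in no common proper module with `x` reaches everything. -/
theorem reach {x y : V} (h : ¬ Mod G x y) (z : V) (hz : z ≠ x) : ReflTransGen (Arc G x) y z := by
  by_contra hc
  apply h
  refine ⟨{w | w = x ∨ ReflTransGen (Arc G x) y w}, ?_, ?_, Or.inl rfl, Or.inr ReflTransGen.refl⟩
  · have key : ∀ a ∈ {w | w = x ∨ ReflTransGen (Arc G x) y w},
        ∀ w, w ∉ {w | w = x ∨ ReflTransGen (Arc G x) y w} → (G.Adj w a ↔ G.Adj w x) := by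
      intro a ha w hw
      rw [Set.mem_setOf_eq, not_or] at hw
      rcases ha with rfl | ha
      · exact Iff.rfl
      · by_contra hcon
        apply hw.2
        refine ha.tail ⟨hw.1, ?_, fun h' => hcon h'.symm⟩
        rintro rfl
        exact hw.2 ha
    intro a ha b hb w hw
    rw [key a ha w hw, key b hb w hw]
  · intro hu
    have : z ∈ {w | w = x ∨ ReflTransGen (Arc G x) y w} := by rw [hu]; trivial
    exact this.elim hz hc

/-- No arc leads out of the class of `x`. -/
theorem Arc.mod {x y z : V} (h : Arc G x y z) (hz : ¬ Mod G x z) : ¬ Mod G x y := by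
  intro hy
  exact h.2.2 (hy.adj_iff hz)

/-- There is a vertex outside the class of `x` which distinguishes `x`... -/
theorem exists_dist [Finite V] (h1 : ∀ x y, ReflTransGen G.Adj x y)
    (h2 : ∀ x y, ReflTransGen (CoAdj G) x y) [Nontrivial V] (x y : V) :
    ∃ u, ¬ Mod G x u ∧ ¬ (G.Adj x u ↔ G.Adj x y) := by
  by_contra hc
  push Not at hc
  have key : ∀ m, Mod G x m → ∀ u, ¬ Mod G x u → (G.Adj m u ↔ G.Adj x y) := by
    intro m hm u hu
    rw [G.adj_comm m u, ← hm.adj_iff hu, G.adj_comm u x]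
    exact hc u hu
  obtain ⟨b, hb⟩ := exists_not_mod h1 h2 x
  by_cases hxy : G.Adj x y
  · have h3 : ∀ z, ReflTransGen (CoAdj G) x z → Mod G x z := by
      intro z hz
      induction hz with
      | refl => exact mod_refl x
      | tail _ h4 ih =>
        by_contra hc
        exact h4.2 ((key _ ih _ hc).2 hxy)
    exact hb (h3 b (h2 x b))
  · have h3 : ∀ z, ReflTransGen G.Adj x z → Mod G x z := by
      intro z hz
      induction hz with
      | refl => exact mod_refl x
      | tail _ h4 ih =>
        by_contra hc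
        exact hxy ((key _ ih _ hc).1 h4)
    exact hb (h3 b (h1 x b))

end

end Pool.Agent.J4.H79.PG
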