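import Pool.Agent.J4.H79.PG.Ratio
import Pool.Agent.J4.H79.PG.Uniform

/-!
# Permutation graphs: the row of an extreme vertex separates the maximal modules
-/

set_option autoImplicit false
set_option linter.unusedSectionVars false

namespace Pool.Agent.J4.H79.PG

open Relation Finset

/-- `G` is a permutation graph: there are two linear orders on the vertex set such that two
vertices are adjacent iff the two orders disagree on them. -/
def IsPermutationGraph {V : Type} (G : SimpleGraph V) : Prop :=
  ∃ L₁ L₂ : LinearOrder V, ∀ x y, G.Adj x y ↔ (L₁.lt x y ∧ L₂.lt y x) ∨ (L₁.lt y x ∧ L₂.lt x y)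

theorem IsPermutationGraph.induce {V : Type} {G : SimpleGraph V} (h : IsPermutationGraph G)
    (S : Set V) : IsPermutationGraph (G.induce S) := by
  obtain ⟨L₁, L₂, h⟩ := h
  exact ⟨@LinearOrder.lift' S V L₁ Subtype.val Subtype.val_injective,
    @LinearOrder.lift' S V L₂ Subtype.val Subtype.val_injective, fun x y => h x.1 y.1⟩

/-- The four strict orders of a permutation graph. -/
structure Ords {V : Type} (G : SimpleGraph V) (R : Bool → Bool → V → V → Prop) : Prop where
  trans : ∀ b s x y z, R b s x y → R b s y z → R b s x z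
  total : ∀ b s x y, x ≠ y → R b s x y ∨ R b s y x
  flip : ∀ b s x y, R b (!s) x y ↔ R b s y x
  adj : ∀ b s x y, R b s x y → (G.Adj x y ↔ R (!b) s y x)

theorem IsPermutationGraph.ords {V : Type} [Finite V] [Nonempty V] {G : SimpleGraph V}
    (h : IsPermutationGraph G) :
    ∃ R : Bool → Bool → V → V → Prop, Ords G R ∧ ∃ v, ∀ x, x ≠ v → R true true v x := by
  obtain ⟨L₁, L₂, h⟩ := h
  refine ⟨fun b s x y => match b, s with
    | true, true => L₁.lt x y
    | true, false => L₁.lt y x
    | false, true => L₂.lt x y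
    | false, false => L₂.lt y x, ⟨?_, ?_, ?_, ?_⟩, ?_⟩
  · intro b s x y z h1 h2
    match b, s with
    | true, true => exact @lt_trans V L₁.toPreorder _ _ _ h1 h2
    | true, false => exact @lt_trans V L₁.toPreorder _ _ _ h2 h1
    | false, true => exact @lt_trans V L₂.toPreorder _ _ _ h1 h2
    | false, false => exact @lt_trans V L₂.toPreorder _ _ _ h2 h1
  · intro b s x y hne
    match b, s with
    | true, true => exact @lt_or_gt_of_ne V L₁ _ _ hne
    | true, false => exact (@lt_or_gt_of_ne V L₁ _ _ hne).symm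
    | false, true => exact @lt_or_gt_of_ne V L₂ _ _ hne
    | false, false => exact (@lt_or_gt_of_ne V L₂ _ _ hne).symm
  · intro b s x y
    match b, s with
    | true, true => exact Iff.rfl
    | true, false => exact Iff.rfl
    | false, true => exact Iff.rfl
    | false, false => exact Iff.rfl
  · intro b s x y hR
    match b, s with
    | true, true =>
      rw [h]
      exact ⟨fun h1 => h1.elim And.right fun h2 => absurd h2.1 (@lt_asymm V L₁.toPreorder _ _ hR),
        fun h1 => Or.inl ⟨hR, h1⟩⟩
    | true, false =>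
      rw [h]
      exact ⟨fun h1 => h1.elim (fun h2 => absurd h2.1 (@lt_asymm V L₁.toPreorder _ _ hR)) And.right,
        fun h1 => Or.inr ⟨hR, h1⟩⟩
    | false, true =>
      rw [h]
      exact ⟨fun h1 => h1.elim (fun h2 => absurd h2.2 (@lt_asymm V L₂.toPreorder _ _ hR)) And.left,
        fun h1 => Or.inr ⟨h1, hR⟩⟩
    | false, false =>
      rw [h]
      exact ⟨fun h1 => h1.elim And.left fun h2 => absurd h2.2 (@lt_asymm V L₂.toPreorder _ _ hR),
        fun h1 => Or.inl ⟨h1, hR⟩⟩
  · obtain ⟨v, hv⟩ := @Finite.exists_min V V _ _ L₁ id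
    exact ⟨v, fun x hx => @lt_of_le_of_ne V L₁.toPartialOrder _ _ (hv x) (Ne.symm hx)⟩

section
variable {V : Type} [Fintype V] {G : SimpleGraph V} {K : Type} {c : V → V → K}
  {R : Bool → Bool → V → V → Prop} {v : V}

/-- The partitions that are considered. -/
structure Good (c : V → V → K) (R : Bool → Bool → V → V → Prop) (v : V) (E : Setoid V) : Prop where
  alone : ∀ x, E.r v x → x = v
  sep : ∀ x y, ¬ E.r x y → ∃ b s, ∀ a d, E.r x a → E.r y d → R b s a d
  col : ∀ x y, c v x = c v y → E.r x y

/-- In a minimal good partition all classes are modules. -/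
theorem Good.isModule (hR : Ords G R)
    (hstep : ∀ x y, c v x = c v y → ∃ β : V ≃ V, ∀ z, c v z = c v (β z) ∧
      (G.Adj z x ↔ G.Adj (β z) y)) {E : Setoid V} (hE : Good c R v E)
    (hmin : ∀ E' : Setoid V, Good c R v E' → (∀ x y, E'.r x y → E.r x y) →
      ∀ x y, E.r x y → E'.r x y) {x y z : V} (hxy : E.r x y) (hxz : ¬ E.r x z) :
    G.Adj z x ↔ G.Adj z y := by
  classical
  obtain ⟨b, s, hbs⟩ := hE.sep x z hxz
  let N : V → Finset V := fun a => univ.filter fun d => E.r z d ∧ G.Adj a d
  have hN : ∀ a d, E.r x a → E.r z d → (G.Adj a d ↔ R (!b) s d a) := fun a d ha hd =>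
    hR.adj b s a d (hbs a d ha hd)
  have nest : ∀ a a', E.r x a → E.r x a' → R (!b) s a a' → N a ⊆ N a' := by
    intro a a' ha ha' haa d hd
    rw [mem_filter] at hd ⊢
    refine ⟨mem_univ _, hd.2.1, ?_⟩
    rw [hN a' d ha' hd.2.1]
    exact hR.trans _ _ _ _ _ ((hN a d ha hd.2.1).1 hd.2.2) haa
  have lt_of : ∀ a a', E.r x a → E.r x a' → (N a).card < (N a').card → R (!b) s a a' := by
    intro a a' ha ha' hlt
    have hne : a ≠ a' := by rintro rfl; exact lt_irrefl _ hlt
    rcases hR.total (!b) s a a' hne with h | h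
    · exact h
    · exact absurd (Finset.card_le_card (nest a' a ha' ha h)) (not_le.2 hlt)
  let E' : Setoid V :=
    { r := fun p q => E.r p q ∧ (E.r x p → (N p).card = (N q).card)
      iseqv := by
        refine ⟨fun p => ⟨E.refl p, fun _ => rfl⟩, fun {p q} h => ⟨E.symm h.1, fun h' => ?_⟩,
          fun {p q w} h h' => ⟨E.trans h.1 h'.1, fun h'' => ?_⟩⟩
        · exact (h.2 (E.trans h' (E.symm h.1))).symm
        · exact (h.2 h'').trans (h'.2 (E.trans h'' h.1)) }
  have hE' : Good c R v E' := by
    refine ⟨fun p hp => hE.alone p hp.1, fun p q hpq => ?_, fun p q hpq => ?_⟩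
    · by_cases h1 : E.r p q
      · have h2 : E.r x p ∧ (N p).card ≠ (N q).card := by
          by_contra h2
          rw [not_and, not_not] at h2
          exact hpq ⟨h1, h2⟩
        have h3 : E.r x q := E.trans h2.1 h1
        rcases lt_or_gt_of_ne h2.2 with h4 | h4
        · refine ⟨!b, s, fun a d ha hd => lt_of a d (E.trans h2.1 ha.1) (E.trans h3 hd.1) ?_⟩
          rw [← ha.2 h2.1, ← hd.2 h3]
          exact h4
        · refine ⟨!b, !s, fun a d ha hd => ?_⟩
          rw [hR.flip]
          refine lt_of d a (E.trans h3 hd.1) (E.trans h2.1 ha.1) ?_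
          rw [← ha.2 h2.1, ← hd.2 h3]
          exact h4
      · obtain ⟨b', s', h2⟩ := hE.sep p q h1
        exact ⟨b', s', fun a d ha hd => h2 a d ha.1 hd.1⟩
    · refine ⟨hE.col p q hpq, fun _ => ?_⟩
      obtain ⟨β, hβ⟩ := hstep p q hpq
      refine Finset.card_bij (fun d _ => β d) ?_ (fun a _ b _ hab => β.injective hab) ?_
      · intro d hd
        rw [mem_filter] at hd ⊢
        refine ⟨mem_univ _, E.trans hd.2.1 (hE.col _ _ (hβ d).1), ?_⟩
        exact ((hβ d).2.1 hd.2.2.symm).symm
      · intro d hd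
        rw [mem_filter] at hd
        obtain ⟨w, rfl⟩ := β.surjective d
        refine ⟨w, ?_, rfl⟩
        rw [mem_filter]
        exact ⟨mem_univ _, E.trans hd.2.1 (E.symm (hE.col _ _ (hβ w).1)),
          ((hβ w).2.2 hd.2.2.symm).symm⟩
  have hcard : ∀ a, E.r x a → (N x).card = (N a).card := fun a ha =>
    (hmin E' hE' (fun p q h => h.1) x a ha).2 (E.refl x)
  have heq : N x = N y := by
    by_cases hne : x = y
    · rw [hne]
    · rcases hR.total (!b) s x y hne with h | h
      · exact Finset.eq_of_subset_of_card_le (nest x y (E.refl x) hxy h) (hcard y hxy).ge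
      · exact (Finset.eq_of_subset_of_card_le (nest y x hxy (E.refl x) h) (hcard y hxy).le).symm
  have hz : ∀ a, z ∈ N a ↔ G.Adj a z := by
    intro a
    rw [mem_filter]
    exact ⟨fun h => h.2.2, fun h => ⟨mem_univ _, E.refl z, h⟩⟩
  rw [G.adj_comm z x, G.adj_comm z y, ← hz x, ← hz y, heq]

/-- **Row separation.** -/
theorem row_sep [Nontrivial V] (hR : Ords G R) (hv : ∀ x, x ≠ v → R true true v x)
    (heq : ∀ x, c v x = c v v → x = v)
    (hstep : ∀ x y, c v x = c v y → ∃ β : V ≃ V, ∀ z, c v z = c v (β z) ∧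
      (G.Adj z x ↔ G.Adj (β z) y)) {x y : V} (hxy : c v x = c v y) : Mod G x y := by
  classical
  -- the initial partition
  let E0 : Setoid V :=
    { r := fun p q => (p = v ↔ q = v)
      iseqv := ⟨fun p => Iff.rfl, fun h => h.symm, fun h h' => h.trans h'⟩ }
  have hE0 : Good c R v E0 := by
    refine ⟨fun p hp => (show (v = v ↔ p = v) from hp).1 rfl, fun p q hpq => ?_, fun p q hpq => ?_⟩
    · have hpq' : ¬ (p = v ↔ q = v) := hpq
      by_cases hp : p = v
      · have hq : q ≠ v := fun h => hpq' ⟨fun _ => h, fun _ => hp⟩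
        refine ⟨true, true, fun a d ha hd => ?_⟩
        have ha' : (p = v ↔ a = v) := ha
        have hd' : (q = v ↔ d = v) := hd
        rw [ha'.1 hp]
        exact hv d fun h => hq (hd'.2 h)
      · have hq : q = v := by
          by_contra h
          exact hpq' ⟨fun h' => absurd h' hp, fun h' => absurd h' h⟩
        refine ⟨true, !true, fun a d ha hd => ?_⟩
        have ha' : (p = v ↔ a = v) := ha
        have hd' : (q = v ↔ d = v) := hd
        rw [hR.flip, hd'.1 hq]
        exact hv a fun h => hp (ha'.2 h)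
    · show p = v ↔ q = v
      constructor
      · rintro rfl
        exact heq q hpq.symm
      · rintro rfl
        exact heq p hpq
  -- a minimal partition
  let μ : Setoid V → ℕ := fun E => ((univ : Finset (V × V)).filter fun p => E.r p.1 p.2).card
  have hex : ∃ n, ∃ E : Setoid V, Good c R v E ∧ μ E = n := ⟨_, E0, hE0, rfl⟩
  obtain ⟨E, hE, hμ⟩ := Nat.find_spec hex
  have hmin : ∀ E' : Setoid V, Good c R v E' → (∀ x y, E'.r x y → E.r x y) →
      ∀ x y, E.r x y → E'.r x y := by
    intro E' hE' hle a d had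
    by_contra hc
    have h1 : μ E' < μ E := by
      refine Finset.card_lt_card ⟨fun p hp => ?_, fun hs => ?_⟩
      · rw [mem_filter] at hp ⊢
        exact ⟨hp.1, hle _ _ hp.2⟩
      · have h2 : ((a, d) : V × V) ∈ (univ : Finset (V × V)).filter fun p => E.r p.1 p.2 := by
          rw [mem_filter]
          exact ⟨mem_univ _, had⟩
        have h3 := hs h2
        rw [mem_filter] at h3
        exact hc h3.2
    rw [hμ] at h1
    exact Nat.find_min hex h1 ⟨E', hE', rfl⟩
  by_cases hx : x = v
  · subst hx
    rw [heq y hxy.symm]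
    exact mod_refl x
  · refine ⟨{a | E.r x a}, ?_, ?_, E.refl x, hE.col x y hxy⟩
    · intro a ha d hd z hz
      have hz' : ¬ E.r a z := fun h => hz (E.trans ha h)
      exact hE.isModule hR hstep hmin (E.trans (E.symm ha) hd) hz'
    · intro hu
      have h1 : v ∈ {a | E.r x a} := by rw [hu]; trivial
      exact hx (hE.alone x (E.symm h1))

end

end Pool.Agent.J4.H79.PG
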