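import Pool.Agent.J4.H79.PG.Modules

/-!
# The relation `Mod` is invariant
-/

set_option autoImplicit false
set_option linter.unusedSectionVars false

namespace Pool.Agent.J4.H79.PG

open Relation Finset

variable {V : Bool → Type} [∀ i, Fintype (V i)] {G : ∀ i, SimpleGraph (V i)} {K : Type}
  {c : ∀ i, V i → V i → K}

open Classical in
/-- the points of colour `κ` in the row of `x` -/
noncomputable def row (c : ∀ i, V i → V i → K) (i : Bool) (x : V i) (κ : K) : Finset (V i) :=
  univ.filter fun z => c i x z = κ

open Classical in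
/-- the points of colour `κ` in the row of `x` that do not lie in the class of `x` -/
noncomputable def far (G : ∀ i, SimpleGraph (V i)) (c : ∀ i, V i → V i → K) (i : Bool) (x : V i)
    (κ : K) : Finset (V i) :=
  univ.filter fun z => c i x z = κ ∧ ¬ Mod (G i) x z

/-- the proportion -/
noncomputable def ratio (G : ∀ i, SimpleGraph (V i)) (c : ∀ i, V i → V i → K) (i : Bool) (x : V i)
    (κ : K) : ℚ := ((far G c i x κ).card : ℚ) / ((row c i x κ).card : ℚ)

open Classical in
/-- the number of arcs out of a vertex of the row into a colour -/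
theorem card_out (hS : Stable V G c) {i j : Bool} {x w : V i} {x' w' : V j}
    (h : c i x w = c j x' w') (μ : K) :
    (univ.filter fun z => c i x z = μ ∧ Arc (G i) x w z).card =
      (univ.filter fun z => c j x' z = μ ∧ Arc (G j) x' w' z).card := by
  obtain ⟨β, hβ⟩ := hS.step h
  refine Finset.card_bij (fun z _ => β z) ?_ (fun a _ b _ hab => β.injective hab) ?_
  · intro z hz
    rw [mem_filter] at hz ⊢
    refine ⟨mem_univ _, (hβ z).1.symm.trans hz.2.1, ?_, ?_, ?_⟩
    · exact fun h1 => hz.2.2.1 ((hS.eq_iff (hβ z).1).2 h1.symm).symm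
    · exact fun h1 => hz.2.2.2.1 ((hS.eq_iff (hβ z).2).2 h1)
    · intro h1
      apply hz.2.2.2.2
      rw [(G i).adj_comm z x, hS.adj_iff (hβ z).1, hS.adj_iff (hβ z).2, (G j).adj_comm x']
      exact h1
  · intro z hz
    rw [mem_filter] at hz
    obtain ⟨y, rfl⟩ := β.surjective z
    refine ⟨y, ?_, rfl⟩
    rw [mem_filter]
    refine ⟨mem_univ _, (hβ y).1.trans hz.2.1, ?_, ?_, ?_⟩
    · exact fun h1 => hz.2.2.1 ((hS.eq_iff (hβ y).1).1 h1.symm).symm
    · exact fun h1 => hz.2.2.2.1 ((hS.eq_iff (hβ y).2).1 h1)
    · intro h1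
      apply hz.2.2.2.2
      rw [(G j).adj_comm _ x', ← hS.adj_iff (hβ y).1, ← hS.adj_iff (hβ y).2, (G i).adj_comm x]
      exact h1

open Classical in
/-- the number of arcs from a colour into a vertex of the row -/
theorem card_in (hS : Stable V G c) {i j : Bool} {x z : V i} {x' z' : V j}
    (h : c i x z = c j x' z') (μ : K) :
    (univ.filter fun w => c i x w = μ ∧ Arc (G i) x w z).card =
      (univ.filter fun w => c j x' w = μ ∧ Arc (G j) x' w z').card := by
  obtain ⟨β, hβ⟩ := hS.step h
  have key : ∀ w, Arc (G i) x w z ↔ Arc (G j) x' (β w) z' := by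
    intro w
    unfold Arc
    refine and_congr (not_congr ?_) (and_congr (not_congr ?_) (not_congr (iff_congr ?_ ?_)))
    · have h1 := hS.eq_iff h
      exact ⟨fun h2 => (h1.1 h2.symm).symm, fun h2 => (h1.2 h2.symm).symm⟩
    · have h1 := hS.eq_iff (hβ w).2
      exact ⟨fun h2 => (h1.1 h2.symm).symm, fun h2 => (h1.2 h2.symm).symm⟩
    · rw [(G i).adj_comm z x, (G j).adj_comm z' x']
      exact hS.adj_iff h
    · rw [(G i).adj_comm z w, (G j).adj_comm z' (β w)]
      exact hS.adj_iff (hβ w).2
  refine Finset.card_bij (fun w _ => β w) ?_ (fun a _ b _ hab => β.injective hab) ?_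
  · intro w hw
    rw [mem_filter] at hw ⊢
    exact ⟨mem_univ _, (hβ w).1.symm.trans hw.2.1, (key w).1 hw.2.2⟩
  · intro w hw
    rw [mem_filter] at hw
    obtain ⟨y, rfl⟩ := β.surjective w
    refine ⟨y, ?_, rfl⟩
    rw [mem_filter]
    exact ⟨mem_univ _, (hβ y).1.trans hw.2.1, (key y).2 hw.2.2⟩

/-- the basic count: `u`, `y` are points of the row of `x`, and there is an arc from the colour of
`u` to the colour of `y` -/
theorem ratio_arc (hS : Stable V G c) {i j : Bool} {x u y : V i} {x' u' y' : V j}
    (hu : c i x u = c j x' u') (hy : c i x y = c j x' y') (harc : Arc (G j) x' u' y') :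
    ratio G c i x (c i x y) ≤ ratio G c i x (c i x u) ∧
      (Arc (G i) x u y → ¬ Mod (G i) x u → Mod (G i) x y →
        ratio G c i x (c i x y) < ratio G c i x (c i x u)) := by
  classical
  set κ := c i x u with hκ
  set μ := c i x y with hμ
  -- out-degree and in-degree
  set d := (univ.filter fun z => c i x z = μ ∧ Arc (G i) x u z).card with hd
  set e := (univ.filter fun w => c i x w = κ ∧ Arc (G i) x w y).card with he
  have hd' : ∀ w, c i x w = κ → (univ.filter fun z => c i x z = μ ∧ Arc (G i) x w z).card = d :=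
    fun w hw => card_out hS hw μ
  have he' : ∀ z, c i x z = μ → (univ.filter fun w => c i x w = κ ∧ Arc (G i) x w z).card = e :=
    fun z hz => card_in hS hz κ
  have hd0 : 0 < d := by
    rw [hd, card_out hS hu μ]
    apply Finset.card_pos.2
    exact ⟨y', by rw [mem_filter]; exact ⟨mem_univ _, hy.symm, harc⟩⟩
  -- all arcs
  have c1 : (row c i x κ).card * d = (row c i x μ).card * e := by
    refine Finset.card_mul_eq_card_mul (fun w z => Arc (G i) x w z) ?_ ?_
    · intro w hw
      unfold row at hw
      rw [mem_filter] at hw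
      rw [← hd' w hw.2, Finset.bipartiteAbove, row, Finset.filter_filter]
    · intro z hz
      unfold row at hz
      rw [mem_filter] at hz
      rw [← he' z hz.2, Finset.bipartiteBelow, row, Finset.filter_filter]
  -- arcs out of far points
  set F1 := (univ : Finset (V i × V i)).filter fun p =>
    (c i x p.1 = κ ∧ ¬ Mod (G i) x p.1) ∧ c i x p.2 = μ ∧ Arc (G i) x p.1 p.2 with hF1
  set F2 := (univ : Finset (V i × V i)).filter fun p =>
    (c i x p.2 = μ ∧ ¬ Mod (G i) x p.2) ∧ c i x p.1 = κ ∧ Arc (G i) x p.1 p.2 with hF2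
  have c2 : F1.card = (far G c i x κ).card * d := by
    rw [Finset.card_eq_sum_card_fiberwise (f := Prod.fst) (t := far G c i x κ)]
    · rw [Finset.sum_const_nat (m := d)]
      intro w hw
      unfold far at hw
      rw [mem_filter] at hw
      rw [← hd' w hw.2.1]
      refine Finset.card_bij (fun p _ => p.2) ?_ ?_ ?_
      · intro p hp
        rw [mem_filter, hF1, mem_filter] at hp
        rw [mem_filter]
        obtain ⟨⟨-, -, h1, h2⟩, h3⟩ := hp
        rw [h3] at h2
        exact ⟨mem_univ _, h1, h2⟩
      · intro p hp q hq hpq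
        rw [mem_filter] at hp hq
        exact Prod.ext (hp.2.trans hq.2.symm) hpq
      · intro z hz
        rw [mem_filter] at hz
        refine ⟨(w, z), ?_, rfl⟩
        rw [mem_filter, hF1, mem_filter]
        exact ⟨⟨mem_univ _, hw.2, hz.2⟩, rfl⟩
    · intro p hp
      have hp' : p ∈ F1 := hp
      rw [hF1, mem_filter] at hp'
      show p.1 ∈ far G c i x κ
      unfold far
      rw [mem_filter]
      exact ⟨mem_univ _, hp'.2.1⟩
  have c3 : F2.card = (far G c i x μ).card * e := by
    rw [Finset.card_eq_sum_card_fiberwise (f := Prod.snd) (t := far G c i x μ)]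
    · rw [Finset.sum_const_nat (m := e)]
      intro z hz
      unfold far at hz
      rw [mem_filter] at hz
      rw [← he' z hz.2.1]
      refine Finset.card_bij (fun p _ => p.1) ?_ ?_ ?_
      · intro p hp
        rw [mem_filter, hF2, mem_filter] at hp
        rw [mem_filter]
        obtain ⟨⟨-, -, h1, h2⟩, h3⟩ := hp
        rw [h3] at h2
        exact ⟨mem_univ _, h1, h2⟩
      · intro p hp q hq hpq
        rw [mem_filter] at hp hq
        exact Prod.ext hpq (hp.2.trans hq.2.symm)
      · intro w hw
        rw [mem_filter] at hw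
        refine ⟨(w, z), ?_, rfl⟩
        rw [mem_filter, hF2, mem_filter]
        exact ⟨⟨mem_univ _, hz.2, hw.2⟩, rfl⟩
    · intro p hp
      have hp' : p ∈ F2 := hp
      rw [hF2, mem_filter] at hp'
      show p.2 ∈ far G c i x μ
      unfold far
      rw [mem_filter]
      exact ⟨mem_univ _, hp'.2.1⟩
  have hsub : F2 ⊆ F1 := by
    intro p hp
    rw [hF2, mem_filter] at hp
    rw [hF1, mem_filter]
    obtain ⟨-, ⟨h1, h2⟩, h3, h4⟩ := hp
    exact ⟨mem_univ _, ⟨h3, h4.mod h2⟩, h1, h4⟩
  -- positivity
  have hn1 : 0 < (row c i x κ).card :=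
    Finset.card_pos.2 ⟨u, by unfold row; rw [mem_filter]; exact ⟨mem_univ _, rfl⟩⟩
  have hn2 : 0 < (row c i x μ).card :=
    Finset.card_pos.2 ⟨y, by unfold row; rw [mem_filter]; exact ⟨mem_univ _, rfl⟩⟩
  have q1 : (0 : ℚ) < (row c i x κ).card := by exact_mod_cast hn1
  have q2 : (0 : ℚ) < (row c i x μ).card := by exact_mod_cast hn2
  have qd : (0 : ℚ) < d := by exact_mod_cast hd0
  have e1 : ((row c i x κ).card : ℚ) * d = (row c i x μ).card * e := by exact_mod_cast c1
  unfold ratio
  constructor
  · rw [div_le_div_iff₀ q2 q1]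
    have h1 : ((far G c i x μ).card : ℚ) * e ≤ (far G c i x κ).card * d := by
      have := Finset.card_le_card hsub
      rw [c2, c3] at this
      exact_mod_cast this
    have h2 : ((far G c i x μ).card : ℚ) * (row c i x κ).card * d ≤
        (far G c i x κ).card * (row c i x μ).card * d := by
      calc ((far G c i x μ).card : ℚ) * (row c i x κ).card * d
          = (row c i x μ).card * (((far G c i x μ).card : ℚ) * e) := by
            rw [mul_assoc, e1]; ring
        _ ≤ (row c i x μ).card * ((far G c i x κ).card * d) :=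
            mul_le_mul_of_nonneg_left h1 q2.le
        _ = (far G c i x κ).card * (row c i x μ).card * d := by ring
    exact le_of_mul_le_mul_right h2 qd
  · intro ha hfu hfy
    rw [div_lt_div_iff₀ q2 q1]
    have h1 : ((far G c i x μ).card : ℚ) * e < (far G c i x κ).card * d := by
      have hss : F2 ⊂ F1 := by
        refine ⟨hsub, fun hs => ?_⟩
        have h2 : ((u, y) : V i × V i) ∈ F1 := by
          rw [hF1, mem_filter]
          exact ⟨mem_univ _, ⟨rfl, hfu⟩, rfl, ha⟩
        have h3 := hs h2
        rw [hF2, mem_filter] at h3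
        exact h3.2.1.2 hfy
      have := Finset.card_lt_card hss
      rw [c2, c3] at this
      exact_mod_cast this
    have h2 : ((far G c i x μ).card : ℚ) * (row c i x κ).card * d <
        (far G c i x κ).card * (row c i x μ).card * d := by
      calc ((far G c i x μ).card : ℚ) * (row c i x κ).card * d
          = (row c i x μ).card * (((far G c i x μ).card : ℚ) * e) := by
            rw [mul_assoc, e1]; ring
        _ < (row c i x μ).card * ((far G c i x κ).card * d) :=
            mul_lt_mul_of_pos_left h1 q2
        _ = (far G c i x κ).card * (row c i x μ).card * d := by ring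
    exact lt_of_mul_lt_mul_right h2 qd.le

/-- **Invariance of `Mod`.** -/
theorem mod_invariant (hS : Stable V G c) (h1 : ∀ i x y, ReflTransGen (G i).Adj x y)
    (h2 : ∀ i x y, ReflTransGen (CoAdj (G i)) x y) (hnt : ∀ i, Nontrivial (V i)) {i j : Bool}
    {x y : V i} {x' y' : V j} (h : c i x y = c j x' y') (hm : Mod (G i) x y) :
    Mod (G j) x' y' := by
  have := hnt i
  have := hnt j
  by_contra hc
  by_cases hxy : x = y
  · have h3 := (hS.eq_iff h).1 hxy
    rw [h3] at hc
    exact hc (mod_refl y')
  -- a far point distinguishing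
  obtain ⟨u, hu1, hu2⟩ := exists_dist (h1 i) (h2 i) x y
  have hux : u ≠ x := by
    rintro rfl
    exact hu1 (mod_refl u)
  have harc : Arc (G i) x u y := by
    refine ⟨fun h => hxy h.symm, ?_, fun h3 => hu2 ?_⟩
    · rintro rfl
      exact hu1 hm
    · have h4 := hm.adj_iff hu1
      rw [(G i).adj_comm x u, h4, (G i).adj_comm u y, ← h3, (G i).adj_comm y x]
  obtain ⟨β, hβ⟩ := hS.row (hS.left h)
  -- strict inequality
  have hs := (ratio_arc hS (i := i) (j := i) (x := x) (u := u) (y := y) rfl rfl harc).2 harc hu1 hm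
  -- the path
  have hpath := reach hc (β u) (by
    intro h3
    have h4 := hβ u
    rw [h3] at h4
    exact hux ((hS.eq_iff h4).2 rfl).symm)
  have key : ∀ z', ReflTransGen (Arc (G j) x') y' z' → ∀ z, c i x z = c j x' z' →
      ratio G c i x (c i x z) ≤ ratio G c i x (c i x y) := by
    intro z' hz'
    induction hz' with
    | refl =>
      intro z hz
      rw [hz, h]
    | @tail a b _ hab ih =>
      intro z hz
      obtain ⟨w, hw⟩ := β.surjective a
      have hw' : c i x w = c j x' a := by rw [← hw]; exact hβ w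
      exact (ratio_arc hS hw' hz hab).1.trans (ih w hw')
  exact absurd (key _ hpath u (hβ u)) (not_le.2 hs)

end Pool.Agent.J4.H79.PG
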